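import Mathlib

set_option autoImplicit false

namespace Pool.Agent.Results.MP_628392_al.Quat

open Polynomial Quaternion

/-- Quaternionic polynomials in `u` (inner variable) and `v` (outer variable). -/
abbrev R : Type := Polynomial (Polynomial ℍ[ℝ])

/-- Similarity in the sense of Ore. -/
def Similar (A B : R) : Prop :=
  Nonempty ((R ⧸ Submodule.span R {A}) ≃ₗ[R] (R ⧸ Submodule.span R {B}))

theorem irr (x : ℍ[ℝ][X]) : Irreducible (X - C x : R) := by
  refine ⟨not_isUnit_X_sub_C x, fun a b h => ?_⟩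
  have h0 : a * b ≠ 0 := h ▸ X_sub_C_ne_zero x
  have h1 := natDegree_mul (left_ne_zero_of_mul h0) (right_ne_zero_of_mul h0)
  have h2 := leadingCoeff_mul a b
  rw [← h, natDegree_X_sub_C] at h1
  rw [← h, leadingCoeff_X_sub_C] at h2
  have h3 : b.leadingCoeff * a.leadingCoeff = 1 := by
    refine mul_left_cancel₀ (left_ne_zero_of_mul (h2 ▸ one_ne_zero : _ * b.leadingCoeff ≠ 0)) ?_
    rw [← mul_assoc, ← h2, one_mul, mul_one]
  rcases (show a.natDegree = 0 ∨ b.natDegree = 0 by omega) with h | h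
  · rw [eq_C_of_natDegree_eq_zero h, ← h]
    exact Or.inl (IsUnit.map C ⟨⟨_, _, h2.symm, h3⟩, rfl⟩)
  · rw [eq_C_of_natDegree_eq_zero h, ← h]
    exact Or.inr (IsUnit.map C ⟨⟨_, _, h3, h2.symm⟩, rfl⟩)

theorem sim {x y : ℍ[ℝ][X]} (h : Similar (X - C x) (X - C y)) :
    ∃ q : ℍ[ℝ], q ≠ 0 ∧ x * C q = C q * y := by
  obtain ⟨φ⟩ := h
  obtain ⟨c, hc⟩ := Submodule.Quotient.mk_surjective _ (φ (Submodule.Quotient.mk 1))
  have key : ∀ f : R, φ (Submodule.Quotient.mk f) = Submodule.Quotient.mk (f * c) := fun f => by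
    rw [← smul_eq_mul, Submodule.Quotient.mk_smul, hc, ← map_smul, ← Submodule.Quotient.mk_smul,
      smul_eq_mul, mul_one]
  have ev : ∀ f ∈ Submodule.span R {(X - C y : R)}, f.eval y = 0 := fun f hf => by
    obtain ⟨e, rfl⟩ := Submodule.mem_span_singleton.1 hf
    exact eval_mul_X_sub_C y
  have h1 : x * c.eval y = c.eval y * y := by
    have := key (X - C x)
    rw [(Submodule.Quotient.mk_eq_zero _).2 (Submodule.mem_span_singleton_self _), map_zero] at this
    have := ev _ ((Submodule.Quotient.mk_eq_zero _).1 this.symm)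
    rw [sub_mul, X_mul, eval_sub, eval_mul_X, eval_C_mul, sub_eq_zero] at this
    exact this.symm
  have h2 : ∀ f : R, (f * c).eval y = f.eval x * c.eval y := by
    intro f
    induction f using Polynomial.induction_on with
    | C a => rw [eval_C_mul, eval_C]
    | add p q hp hq => rw [add_mul, eval_add, eval_add, hp, hq, add_mul]
    | monomial n a ih =>
      rw [pow_succ, ← mul_assoc, mul_assoc _ X, X_mul, ← mul_assoc, eval_mul_X, eval_mul_X, ih,
        mul_assoc, mul_assoc, h1]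
  obtain ⟨d, hd⟩ := φ.surjective (Submodule.Quotient.mk 1)
  obtain ⟨d, rfl⟩ := Submodule.Quotient.mk_surjective _ d
  have h3 := ev _ ((Submodule.Quotient.eq _).1 ((key d).symm.trans hd))
  rw [eval_sub, h2, eval_one, sub_eq_zero] at h3
  have h0 : d.eval x * c.eval y ≠ 0 := h3 ▸ one_ne_zero
  have h4 := natDegree_mul (left_ne_zero_of_mul h0) (right_ne_zero_of_mul h0)
  rw [h3, natDegree_one] at h4
  have h5 := eq_C_of_natDegree_eq_zero (show (c.eval y).natDegree = 0 by omega)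
  exact ⟨_, fun h => right_ne_zero_of_mul h0 (by rw [h5, h, map_zero]), h5 ▸ h1⟩

def i : ℍ[ℝ] := ⟨0, 1, 0, 0⟩
def j : ℍ[ℝ] := ⟨0, 0, 1, 0⟩

noncomputable def P : ℍ[ℝ][X] := C i * X ^ 2 + C i
noncomputable def Q : ℍ[ℝ][X] := C i * X ^ 2 + C (j + j) * X - C i

theorem PQ : P * P = Q * Q := by
  have hi : (C i * C i : ℍ[ℝ][X]) = -1 := by
    rw [← map_mul, show i * i = -1 by ext <;> simp [i], map_neg, map_one]
  have hj : (C j * C j : ℍ[ℝ][X]) = -1 := by
    rw [← map_mul, show j * j = -1 by ext <;> simp [j], map_neg, map_one]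
  have hij : (C j * C i : ℍ[ℝ][X]) = -(C i * C j) := by
    rw [← map_mul, ← map_mul, ← map_neg, show j * i = -(i * j) by ext <;> simp [i, j]]
  have x1 : ∀ p q : ℍ[ℝ][X], X * (C i * q) = C i * (X * q) := fun p q => by
    rw [← mul_assoc, X_mul, mul_assoc]
  have x2 : ∀ p q : ℍ[ℝ][X], X * (C j * q) = C j * (X * q) := fun p q => by
    rw [← mul_assoc, X_mul, mul_assoc]
  have hi' : ∀ q : ℍ[ℝ][X], C i * (C i * q) = -q := fun q => by rw [← mul_assoc, hi, neg_one_mul]
  have hj' : ∀ q : ℍ[ℝ][X], C j * (C j * q) = -q := fun q => by rw [← mul_assoc, hj, neg_one_mul]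
  have hij' : ∀ q : ℍ[ℝ][X], C j * (C i * q) = -(C i * (C j * q)) := fun q => by
    rw [← mul_assoc, hij, neg_mul, mul_assoc]
  simp only [P, Q, map_add, sq, mul_add, add_mul, mul_sub, sub_mul, mul_assoc, x1 0, x2 0,
    X_mul_C, hi, hi', hj', hij']
  abel

theorem prod (x : ℍ[ℝ][X]) : (X - C x) * (X - C (-x)) = (X * X - C (x * x) : R) := by
  rw [map_neg, sub_neg_eq_add, sub_mul, mul_add, mul_add, X_mul_C, map_mul]
  abel

theorem result : ∃ A₁ A₂ B₁ B₂ : R, A₁ * A₂ ≠ 0 ∧ A₁ * A₂ = B₁ * B₂ ∧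
    (∀ A ∈ [A₁, A₂, B₁, B₂], Irreducible A ∧ A.natDegree ≤ 1) ∧
    ∀ A ∈ [A₁, A₂], ∀ B ∈ [B₁, B₂], ¬ Similar A B := by
  refine ⟨X - C P, X - C (-P), X - C Q, X - C (-Q),
    mul_ne_zero (X_sub_C_ne_zero _) (X_sub_C_ne_zero _), by rw [prod, prod, PQ], ?_, ?_⟩
  · simp only [List.mem_cons, List.not_mem_nil, or_false]
    rintro _ (rfl | rfl | rfl | rfl) <;> exact ⟨irr _, (natDegree_X_sub_C _).le⟩
  · have hj : j + j ≠ 0 := fun h => by simpa [j] using congrArg QuaternionAlgebra.imJ h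
    have p1 : P.coeff 1 = 0 := by simp [P, coeff_C]
    have q1 : Q.coeff 1 = j + j := by simp [Q, coeff_C, -map_add]
    simp only [List.mem_cons, List.not_mem_nil, or_false]
    rintro _ (rfl | rfl) _ (rfl | rfl) h <;> obtain ⟨q, h0, h⟩ := sim h <;>
      simpa [p1, q1, h0, hj] using congrArg (coeff · 1) h

end Pool.Agent.Results.MP_628392_al.Quat
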